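import Pool.Agent.Zk71.ST.Mat

/-! # Interactions with a stable gap -/

set_option autoImplicit false
set_option linter.unusedSectionVars false

open scoped BigOperators ComplexConjugate Topology Matrix
open Filter

noncomputable section

namespace Pool.Agent.Zk71.ST

open Pool.Agent.Y738.PE Pool.Agent.Zk71.AX

/-- The lowest eigenvalue of the Hamiltonian is simple, the others are larger by at least `Δ`. -/
def GapAt {d q : ℕ} (h : BConf d q → BConf d q → ℂ) (L : ℕ) [NeZero L] (Δ : ℝ) : Prop :=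
  ∃ (Ψ : Conf d L → ℂ) (E : ℝ), nrm Ψ = 1 ∧ (∀ s, ham h L Ψ s = (E : ℂ) * Ψ s) ∧
    ∀ φ : Conf d L → ℂ, ∑ s, conj (Ψ s) * φ s = 0 → (E + Δ) * nrm φ ≤ en h L φ

/-- The gap is stable. -/
def Stable {d q : ℕ} (X : BConf d q → BConf d q → ℝ) : Prop :=
  ∃ (Δ δ : ℝ) (L₁ : ℕ), 0 < Δ ∧ 0 < δ ∧
    ∀ X' : BConf d q → BConf d q → ℝ, (∀ σ τ, |X' σ τ - X σ τ| ≤ δ) →
      ∀ (L : ℕ) [NeZero L], L₁ ≤ L → GapAt (hermOf X') L Δ

theorem ip_ham {d R' L : ℕ} [NeZero L] (hL : R' + 1 ≤ L)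
    (X : BConf d (R' + 1) → BConf d (R' + 1) → ℝ) (φ : Conf d L → ℂ) :
    (Pool.Agent.TH235.PP.ip φ (Pool.Agent.TH235.PP.ham
      (Matrix.of (hermOf X) : Pool.Agent.TH235.PP.BoxOp d (R' + 1)) L *ᵥ φ)).re =
      en (hermOf X) L φ := by
  unfold en Pool.Agent.TH235.PP.ip
  congr 1
  refine Finset.sum_congr rfl fun s _ => ?_
  rw [Pool.Agent.N232.TP.mulVec_ham _ hL]
  rfl

theorem gd_step {d R' L : ℕ} [NeZero L] (hd : 2 ≤ d) (hL : R' + 1 ≤ L)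
    (X U : BConf d (R' + 1) → BConf d (R' + 1) → ℝ) (Δ J : ℝ) (hΔ : 0 < Δ) (hJ : 0 < J)
    (hXJ : entrySum (hermOf X) ≤ J) (hUJ : entrySum (hermOf U) ≤ J)
    (hgap : GapAt (hermOf X) L Δ) :
    ∃ v : ℝ, ∀ s : ℝ, |s| ≤ Δ / (4 * J * (L : ℝ) ^ 2) →
      gd L X + s * v - (8 * (((R' + 1) ^ 4 : ℕ) : ℝ) ^ 2 * J ^ 3 / Δ ^ 2) * s ^ 2 ≤
        gd L (X + s • U) := by
  obtain ⟨Ψ, E, hΨ, hE, hg⟩ := hgap
  have hLr : (0 : ℝ) < L := by exact_mod_cast Nat.pos_of_ne_zero (NeZero.ne L)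
  have hL2 : (0 : ℝ) < (L : ℝ) ^ 2 := by positivity
  obtain ⟨hX', hhX⟩ : ∃ A : Pool.Agent.TH235.PP.BoxOp d (R' + 1), A = Matrix.of (hermOf X) :=
    ⟨_, rfl⟩
  obtain ⟨hU', hhU⟩ : ∃ A : Pool.Agent.TH235.PP.BoxOp d (R' + 1), A = Matrix.of (hermOf U) :=
    ⟨_, rfl⟩
  have h1 : Pool.Agent.TH235.PP.nJ hX' ≤ J := by rw [hhX]; exact hXJ
  have h2 : Pool.Agent.TH235.PP.nJ hU' ≤ J := by rw [hhU]; exact hUJ
  have hH1 : (Pool.Agent.TH235.PP.ham hX' L).IsHermitian :=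
    Pool.Agent.TH235.PP.ham_herm _ (by rw [hhX]; exact her_of X)
  have hH2 : (Pool.Agent.TH235.PP.ham hU' L).IsHermitian :=
    Pool.Agent.TH235.PP.ham_herm _ (by rw [hhU]; exact her_of U)
  have henX : ∀ φ : Conf d L → ℂ, (Pool.Agent.TH235.PP.ip φ
      (Pool.Agent.TH235.PP.ham hX' L *ᵥ φ)).re = en (hermOf X) L φ := by
    intro φ
    rw [hhX]
    exact ip_ham hL X φ
  have henU : ∀ φ : Conf d L → ℂ, (Pool.Agent.TH235.PP.ip φ
      (Pool.Agent.TH235.PP.ham hU' L *ᵥ φ)).re = en (hermOf U) L φ := by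
    intro φ
    rw [hhU]
    exact ip_ham hL U φ
  have hEΨ : Pool.Agent.TH235.PP.ham hX' L *ᵥ Ψ = (E : ℂ) • Ψ := by
    funext s
    rw [Pool.Agent.N232.TP.mulVec_ham _ hL, hhX]
    exact hE s
  have hEn : en (hermOf X) L Ψ = E := by
    unfold en
    have e1 : ∑ s, conj (Ψ s) * ham (hermOf X) L Ψ s = ((E * nrm Ψ : ℝ) : ℂ) := by
      unfold nrm
      push_cast
      rw [Finset.mul_sum]
      refine Finset.sum_congr rfl fun s _ => ?_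
      rw [hE s]
      have e2 : conj (Ψ s) * Ψ s = ((‖Ψ s‖ : ℝ) : ℂ) ^ 2 := Complex.conj_mul' _
      linear_combination (E : ℂ) * e2
    rw [e1, Complex.ofReal_re, hΨ, mul_one]
  obtain ⟨G, hG, -⟩ := Pool.Agent.Y932.PE.groundExists d (R' + 1) L (by omega) hL X
  have hgd : gd L X * (L : ℝ) ^ 2 ≤ E := by
    rw [gd_eq X G hG, div_mul_cancel₀ _ hL2.ne', ← hEn]
    exact hG.2 Ψ hΨ
  refine ⟨(Pool.Agent.TH235.PP.ip Ψ (Pool.Agent.TH235.PP.ham hU' L *ᵥ Ψ)).re / (L : ℝ) ^ 2, ?_⟩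
  intro s hs
  obtain ⟨G', hG', -⟩ := Pool.Agent.Y932.PE.groundExists d (R' + 1) L (by omega) hL (X + s • U)
  have hdc := ham_dc hX' hU' J hJ.le h1 h2 (L := L)
  have H := mat_lower (Pool.Agent.TH235.PP.ham hX' L) (Pool.Agent.TH235.PP.ham hU' L) hH1 hH2 Ψ
    hΨ E Δ (4 * (((R' + 1) ^ 4 : ℕ) : ℝ) ^ 2 * J ^ 3 * (L : ℝ) ^ 2) ((L : ℝ) ^ 2 * J) hΔ hEΨ
    (fun φ hφ => by rw [henX]; exact hg φ hφ) (hdc.trans (le_of_eq (by ring)))
    ((Pool.Agent.TH235.PP.norm_ham hU').trans (mul_le_mul_of_nonneg_left h2 hL2.le)) s ?_ G' hG'.1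
  · rw [henX, henU, henU, ← Pool.Agent.Y675.PE.energyB.2.1] at H
    rw [gd_eq _ G' hG', le_div_iff₀ hL2, henU]
    have e1 : (gd L X + s * (en (hermOf U) L Ψ / (L : ℝ) ^ 2) -
        8 * (((R' + 1) ^ 4 : ℕ) : ℝ) ^ 2 * J ^ 3 / Δ ^ 2 * s ^ 2) * (L : ℝ) ^ 2 =
        gd L X * (L : ℝ) ^ 2 + s * en (hermOf U) L Ψ -
          2 * (4 * (((R' + 1) ^ 4 : ℕ) : ℝ) ^ 2 * J ^ 3 * (L : ℝ) ^ 2) / Δ ^ 2 * s ^ 2 := by
      field_simp
      ring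
    rw [e1]
    linarith
  · rw [le_div_iff₀ (by positivity)] at hs
    calc 4 * |s| * ((L : ℝ) ^ 2 * J) = |s| * (4 * J * (L : ℝ) ^ 2) := by ring
      _ ≤ Δ := hs

theorem gd_second {d R' L : ℕ} [NeZero L] (hd : 2 ≤ d) (hL : R' + 1 ≤ L)
    (X U : BConf d (R' + 1) → BConf d (R' + 1) → ℝ) (hU : ‖U‖ ≤ 1) (Δ δ J : ℝ) (hΔ : 0 < Δ)
    (hJ : 0 < J)
    (hgap : ∀ X' : BConf d (R' + 1) → BConf d (R' + 1) → ℝ, (∀ σ τ, |X' σ τ - X σ τ| ≤ δ) →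
      GapAt (hermOf X') L Δ)
    (hXJ : ∀ X' : BConf d (R' + 1) → BConf d (R' + 1) → ℝ, (∀ σ τ, |X' σ τ - X σ τ| ≤ δ) →
      entrySum (hermOf X') ≤ J)
    (hUJ : entrySum (hermOf U) ≤ J) (t : ℝ) (ht0 : 0 ≤ t) (htδ : t ≤ δ) :
    2 * gd L X - gd L (X + t • U) - gd L (X - t • U) ≤
      2 * (8 * (((R' + 1) ^ 4 : ℕ) : ℝ) ^ 2 * J ^ 3 / Δ ^ 2) * t ^ 2 := by
  have hLr : (0 : ℝ) < L := by exact_mod_cast Nat.pos_of_ne_zero (NeZero.ne L)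
  have h := second_diff (fun t => gd L (X + t • U))
    (8 * (((R' + 1) ^ 4 : ℕ) : ℝ) ^ 2 * J ^ 3 / Δ ^ 2) (Δ / (4 * J * (L : ℝ) ^ 2)) δ
    (by positivity) ?_ t ht0 htδ
  · simp only [zero_smul, add_zero, neg_smul, ← sub_eq_add_neg] at h
    exact h
  · intro t' ht'
    have hnear : ∀ σ τ, |(X + t' • U) σ τ - X σ τ| ≤ δ := by
      intro σ τ
      have e1 : (X + t' • U) σ τ - X σ τ = t' * U σ τ := by
        simp [Pi.add_apply, Pi.smul_apply]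
      rw [e1, abs_mul]
      have e2 : |U σ τ| ≤ 1 := by
        have := (norm_le_pi_norm (U σ) τ).trans ((norm_le_pi_norm U σ).trans hU)
        rwa [Real.norm_eq_abs] at this
      have := abs_nonneg t'
      nlinarith [abs_nonneg (U σ τ)]
    obtain ⟨v, hv⟩ := gd_step hd hL (X + t' • U) U Δ J hΔ hJ (hXJ _ hnear) hUJ (hgap _ hnear)
    refine ⟨v, fun s hs => ?_⟩
    have := hv s hs
    rw [add_assoc, ← add_smul] at this
    exact this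

theorem stable_second {d R' : ℕ} (hd : 2 ≤ d) (X : BConf d (R' + 1) → BConf d (R' + 1) → ℝ)
    (hX : Stable X) (F : (BConf d (R' + 1) → BConf d (R' + 1) → ℝ) → ℝ) (C : NNReal) (C₀ : ℝ)
    (hLip : LipschitzWith C F)
    (hF : ∀ L : ℕ, R' + 1 ≤ L → ∀ X, |gd L X - F X| ≤ C₀ * (1 + ‖X‖) / L) :
    ∃ K : ℝ, 0 ≤ K ∧ ∀ (σ τ : BConf d (R' + 1)) (t : ℝ), 0 ≤ t → t ≤ 1 →
      2 * F X - F (X + t • sg σ τ) - F (X - t • sg σ τ) ≤ K * t ^ 2 := by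
  obtain ⟨Δ, δ, L₁, hΔ, hδ, hgap⟩ := hX
  have hC := Pool.Agent.Y236.PE.energyC.1 d (R' + 1)
  obtain ⟨m, hm⟩ : ∃ m : ℝ, m = 4 * (Fintype.card (BConf d (R' + 1)) : ℝ) ^ 2 := ⟨_, rfl⟩
  have hm0 : 0 ≤ m := by rw [hm]; positivity
  simp only [← hm] at hC
  obtain ⟨J, hJe⟩ : ∃ J : ℝ, J = m * (‖X‖ + δ + 1) + 1 := ⟨_, rfl⟩
  have hnX := norm_nonneg X
  have hJ : 0 < J := by rw [hJe]; positivity
  obtain ⟨K, hK⟩ : ∃ K : ℝ, K = 8 * (((R' + 1) ^ 4 : ℕ) : ℝ) ^ 2 * J ^ 3 / Δ ^ 2 := ⟨_, rfl⟩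
  have hK0 : 0 ≤ K := by rw [hK]; positivity
  have hT : ∀ Z, Tendsto (fun L : ℕ => gd L Z) atTop (𝓝 (F Z)) := by
    intro Z
    refine tendsto_iff_norm_sub_tendsto_zero.2 (squeeze_zero'
      (Eventually.of_forall fun _ => norm_nonneg _) ?_
      (tendsto_const_div_atTop_nhds_zero_nat (C₀ * (1 + ‖Z‖))))
    filter_upwards [eventually_ge_atTop (R' + 1)] with L hL
    rw [Real.norm_eq_abs]
    exact hF L hL Z
  have hsec : ∀ U : BConf d (R' + 1) → BConf d (R' + 1) → ℝ, ‖U‖ ≤ 1 → ∀ t : ℝ, 0 ≤ t → t ≤ δ →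
      2 * F X - F (X + t • U) - F (X - t • U) ≤ 2 * K * t ^ 2 := by
    intro U hU t ht0 htδ
    refine le_of_tendsto ((((hT X).const_mul 2).sub (hT (X + t • U))).sub (hT (X - t • U))) ?_
    filter_upwards [eventually_ge_atTop (max L₁ (R' + 1))] with L hL
    have hL1 : L₁ ≤ L := (le_max_left _ _).trans hL
    have hL2 : R' + 1 ≤ L := (le_max_right _ _).trans hL
    haveI : NeZero L := ⟨by omega⟩
    have hXJ : ∀ X' : BConf d (R' + 1) → BConf d (R' + 1) → ℝ,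
        (∀ σ τ, |X' σ τ - X σ τ| ≤ δ) → entrySum (hermOf X') ≤ J := by
      intro X' hX'
      have h1 : ‖X' - X‖ ≤ δ := by
        refine (pi_norm_le_iff_of_nonneg hδ.le).2 fun σ => ?_
        refine (pi_norm_le_iff_of_nonneg hδ.le).2 fun τ => ?_
        exact hX' σ τ
      have h2 : ‖X'‖ ≤ ‖X‖ + δ := by
        have := norm_add_le (X' - X) X
        rw [sub_add_cancel] at this
        linarith
      have h3 := mul_le_mul_of_nonneg_left h2 hm0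
      have h4 := hC X'
      rw [hJe]
      nlinarith
    have hUJ : entrySum (hermOf U) ≤ J := by
      have h3 := mul_le_mul_of_nonneg_left hU hm0
      have h4 := hC U
      have h5 : 0 ≤ m * (‖X‖ + δ) := by positivity
      rw [hJe]
      nlinarith
    rw [hK]
    exact gd_second hd hL2 X U hU Δ δ J hΔ hJ (fun X' hX' => hgap X' hX' L hL1) hXJ hUJ t ht0 htδ
  have hC0 : (0 : ℝ) ≤ C := C.2
  refine ⟨2 * K + 2 * C / δ, by positivity, ?_⟩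
  intro σ τ t ht0 ht1
  by_cases htδ : t ≤ δ
  · refine (hsec (sg σ τ) (sg_norm σ τ) t ht0 htδ).trans ?_
    refine mul_le_mul_of_nonneg_right ?_ (sq_nonneg t)
    have : 0 ≤ 2 * (C : ℝ) / δ := by positivity
    linarith
  · push Not at htδ
    have h1 : ∀ Z : BConf d (R' + 1) → BConf d (R' + 1) → ℝ, ‖Z - X‖ ≤ t → F X - F Z ≤ C * t := by
      intro Z hZ
      have h2 := hLip.dist_le_mul X Z
      rw [Real.dist_eq, dist_eq_norm, norm_sub_rev] at h2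
      have h3 := (le_abs_self _).trans h2
      exact h3.trans (mul_le_mul_of_nonneg_left hZ hC0)
    have hn : ‖t • sg σ τ‖ ≤ t := by
      rw [norm_smul, Real.norm_eq_abs, abs_of_nonneg ht0]
      exact mul_le_of_le_one_right ht0 (sg_norm σ τ)
    have h2 := h1 (X + t • sg σ τ) (by rw [add_sub_cancel_left]; exact hn)
    have h3 := h1 (X - t • sg σ τ) (by rw [sub_sub_cancel_left, norm_neg]; exact hn)
    have h4 : 2 * (C : ℝ) * t ≤ 2 * C / δ * t ^ 2 := by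
      have e1 : 2 * (C : ℝ) / δ * t ^ 2 = 2 * C * t * (t / δ) := by field_simp
      rw [e1]
      have e2 : 1 ≤ t / δ := by rw [one_le_div hδ]; exact htδ.le
      have e3 : 0 ≤ 2 * (C : ℝ) * t := by positivity
      nlinarith
    have h5 : 0 ≤ 2 * K * t ^ 2 := by positivity
    nlinarith

theorem stable_genL {d q : ℕ} (hd : 2 ≤ d) (hq : 0 < q) (X : BConf d q → BConf d q → ℝ)
    (hX : Stable X) : GenL d q X := by
  obtain ⟨R', rfl⟩ : ∃ R' : ℕ, q = R' + 1 := ⟨q - 1, by omega⟩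
  obtain ⟨F, C, C₀, hLip, hcon, hC₀, hF⟩ := rate d (R' + 1) hd hq
  obtain ⟨K, hK, h⟩ := stable_second hd X hX F C C₀ hLip hF
  exact nearCloseL hd F hcon C₀ hC₀ hF X K hK h

theorem stable_genA {d q : ℕ} (hd : 2 ≤ d) (hq : 0 < q) (X : BConf d q → BConf d q → ℝ)
    (hX : Stable X) : GenA d q X := by
  obtain ⟨R', rfl⟩ : ∃ R' : ℕ, q = R' + 1 := ⟨q - 1, by omega⟩
  obtain ⟨F, C, C₀, hLip, hcon, hC₀, hF⟩ := rate d (R' + 1) hd hq
  obtain ⟨K, hK, h⟩ := stable_second hd X hX F C C₀ hLip hF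
  exact genA hd F hcon C₀ hC₀ hF X K hK h

end Pool.Agent.Zk71.ST
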