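import Mathlib

/-! # The double commutator of sums of local operators -/

set_option autoImplicit false

open scoped BigOperators
open Finset

noncomputable section

namespace Pool.Agent.Zk71.ST

open Classical in
theorem dc_bound {A : Type*} [NormedRing A] {ι : Type*} [Fintype ι] (v h : ι → A)
    (adj : ι → ι → Prop) (K : ℕ) (J : ℝ) (hJ : 0 ≤ J) (hv : ∀ x, ‖v x‖ ≤ J)
    (hh : ∀ x, ‖h x‖ ≤ J) (hvv : ∀ x z, ¬ adj x z → v x * v z = v z * v x)
    (hvh : ∀ x y, ¬ adj x y → v x * h y = h y * v x) (hsym : ∀ x y, adj x y → adj y x)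
    (hK : ∀ x, (univ.filter fun y => adj x y).card ≤ K) :
    ‖(∑ x, v x) * ((∑ y, h y) * (∑ x, v x) - (∑ x, v x) * (∑ y, h y)) -
      ((∑ y, h y) * (∑ x, v x) - (∑ x, v x) * (∑ y, h y)) * (∑ x, v x)‖ ≤
      8 * (K : ℝ) ^ 2 * J ^ 3 * (Fintype.card ι : ℝ) := by
  obtain ⟨C, hC⟩ : ∃ C : ι → ι → A, C = fun y x => h y * v x - v x * h y := ⟨_, rfl⟩
  have hC0 : ∀ y x, ¬ adj y x → C y x = 0 := by
    intro y x hyx
    rw [hC]
    simp only
    rw [hvh x y (fun hxy => hyx (hsym _ _ hxy)), sub_self]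
  have hCn : ∀ y x, ‖C y x‖ ≤ 2 * J ^ 2 := by
    intro y x
    rw [hC]
    refine (norm_sub_le _ _).trans ?_
    have h1 : ‖h y * v x‖ ≤ J * J := (norm_mul_le _ _).trans
      (mul_le_mul (hh y) (hv x) (norm_nonneg _) hJ)
    have h2 : ‖v x * h y‖ ≤ J * J := (norm_mul_le _ _).trans
      (mul_le_mul (hv x) (hh y) (norm_nonneg _) hJ)
    nlinarith
  have hW : (∑ y, h y) * (∑ x, v x) - (∑ x, v x) * (∑ y, h y) =
      ∑ y, ∑ x ∈ univ.filter (fun x => adj y x), C y x := by
    have e1 : ∀ y, ∑ x ∈ univ.filter (fun x => adj y x), C y x = ∑ x, C y x := by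
      intro y
      refine Finset.sum_subset (Finset.filter_subset _ _) fun x _ hx => hC0 y x fun hyx => ?_
      exact hx (Finset.mem_filter.2 ⟨Finset.mem_univ _, hyx⟩)
    rw [Finset.sum_congr rfl fun y _ => e1 y]
    rw [hC]
    simp only [Finset.sum_sub_distrib]
    rw [Finset.sum_mul_sum, Finset.sum_mul_sum]
    congr 1
    exact Finset.sum_comm
  rw [hW]
  obtain ⟨D, hD⟩ : ∃ D : ι → ι → ι → A, D = fun y x z => v z * C y x - C y x * v z := ⟨_, rfl⟩
  have hD0 : ∀ y x z, ¬ adj y z → ¬ adj x z → D y x z = 0 := by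
    intro y x z h1 h2
    have e1 : v z * h y = h y * v z := hvh z y fun hc => h1 (hsym _ _ hc)
    have e2 : v z * v x = v x * v z := hvv z x fun hc => h2 (hsym _ _ hc)
    rw [hD, hC]
    simp only
    have e3 : v z * (h y * v x - v x * h y) = (h y * v x - v x * h y) * v z := by
      rw [mul_sub, sub_mul, ← mul_assoc, e1, mul_assoc, e2, ← mul_assoc, ← mul_assoc, e2,
        mul_assoc (v x), e1, mul_assoc (h y), ← mul_assoc (v x)]
    rw [e3, sub_self]
  have hDn : ∀ y x z, ‖D y x z‖ ≤ 4 * J ^ 3 := by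
    intro y x z
    rw [hD]
    refine (norm_sub_le _ _).trans ?_
    have h1 : ‖v z * C y x‖ ≤ J * (2 * J ^ 2) := (norm_mul_le _ _).trans
      (mul_le_mul (hv z) (hCn y x) (norm_nonneg _) hJ)
    have h2 : ‖C y x * v z‖ ≤ (2 * J ^ 2) * J := (norm_mul_le _ _).trans
      (mul_le_mul (hCn y x) (hv z) (norm_nonneg _) (by positivity))
    nlinarith
  have hT : (∑ x, v x) * (∑ y, ∑ x ∈ univ.filter (fun x => adj y x), C y x) -
      (∑ y, ∑ x ∈ univ.filter (fun x => adj y x), C y x) * (∑ x, v x) =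
      ∑ y, ∑ x ∈ univ.filter (fun x => adj y x),
        ∑ z ∈ univ.filter (fun z => adj y z) ∪ univ.filter (fun z => adj x z), D y x z := by
    have e1 : ∀ y x, ∑ z ∈ univ.filter (fun z => adj y z) ∪ univ.filter (fun z => adj x z),
        D y x z = ∑ z, D y x z := by
      intro y x
      refine Finset.sum_subset (Finset.subset_univ _) fun z _ hz => ?_
      rw [Finset.mem_union, not_or, Finset.mem_filter, Finset.mem_filter] at hz
      exact hD0 y x z (fun hc => hz.1 ⟨Finset.mem_univ _, hc⟩)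
        (fun hc => hz.2 ⟨Finset.mem_univ _, hc⟩)
    have e2 : ∀ y x, ∑ z, D y x z = (∑ z, v z) * C y x - C y x * (∑ z, v z) := by
      intro y x
      rw [hD]
      simp only [Finset.sum_sub_distrib]
      rw [Finset.sum_mul, Finset.mul_sum]
    rw [Finset.mul_sum, Finset.sum_mul, ← Finset.sum_sub_distrib]
    refine Finset.sum_congr rfl fun y _ => ?_
    rw [Finset.mul_sum, Finset.sum_mul, ← Finset.sum_sub_distrib]
    refine Finset.sum_congr rfl fun x _ => ?_
    rw [e1, e2]
  rw [hT]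
  have hbd : ∀ y x, ‖∑ z ∈ univ.filter (fun z => adj y z) ∪ univ.filter (fun z => adj x z),
      D y x z‖ ≤ 2 * K * (4 * J ^ 3) := by
    intro y x
    refine (norm_sum_le _ _).trans ?_
    refine (Finset.sum_le_sum fun z _ => hDn y x z).trans ?_
    rw [Finset.sum_const, nsmul_eq_mul]
    refine mul_le_mul_of_nonneg_right ?_ (by positivity)
    have h1 := Finset.card_union_le (univ.filter fun z => adj y z) (univ.filter fun z => adj x z)
    have h2 := hK y
    have h3 := hK x
    have h4 : ((univ.filter fun z => adj y z) ∪ (univ.filter fun z => adj x z)).card ≤ 2 * K := by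
      omega
    exact_mod_cast h4
  refine (norm_sum_le _ _).trans ?_
  have hrow : ∀ y, ‖∑ x ∈ univ.filter (fun x => adj y x),
      ∑ z ∈ univ.filter (fun z => adj y z) ∪ univ.filter (fun z => adj x z), D y x z‖ ≤
      K * (2 * K * (4 * J ^ 3)) := by
    intro y
    refine (norm_sum_le _ _).trans ?_
    refine (Finset.sum_le_sum fun x _ => hbd y x).trans ?_
    rw [Finset.sum_const, nsmul_eq_mul]
    refine mul_le_mul_of_nonneg_right ?_ (by positivity)
    exact_mod_cast hK y
  refine (Finset.sum_le_sum fun y _ => hrow y).trans (le_of_eq ?_)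
  rw [Finset.sum_const, nsmul_eq_mul, Finset.card_univ]
  ring

end Pool.Agent.Zk71.ST
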