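import Mathlib

/-! # From local lower supports of second order to second differences -/

set_option autoImplicit false

noncomputable section

namespace Pool.Agent.Zk71.ST

/-- Increments of a sequence with nonnegative second differences. -/
theorem seq_mono (b : ℕ → ℝ) (n : ℕ) (h0 : b 0 ≤ b 1)
    (h : ∀ j, j + 2 ≤ n → b (j + 1) - b j ≤ b (j + 2) - b (j + 1)) (hn : 1 ≤ n) : b 0 ≤ b n := by
  have h1 : ∀ j, j + 1 ≤ n → 0 ≤ b (j + 1) - b j := by
    intro j
    induction j with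
    | zero => intro _; linarith
    | succ j ih =>
      intro hj
      have := ih (by omega)
      have := h j (by omega)
      show 0 ≤ b (j + 2) - b (j + 1)
      linarith
  have h2 : ∀ j, j ≤ n → b 0 ≤ b j := by
    intro j
    induction j with
    | zero => intro _; exact le_rfl
    | succ j ih =>
      intro hj
      have := ih (by omega)
      have := h1 j hj
      linarith
  exact h2 n le_rfl

/-- Second differences at the midpoint. -/
theorem second_diff (E : ℝ → ℝ) (K r δ : ℝ) (hr : 0 < r)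
    (h : ∀ t : ℝ, |t| ≤ δ → ∃ v : ℝ, ∀ s : ℝ, |s| ≤ r → E t + s * v - K * s ^ 2 ≤ E (t + s))
    (t : ℝ) (ht0 : 0 ≤ t) (htδ : t ≤ δ) : 2 * E 0 - E t - E (-t) ≤ 2 * K * t ^ 2 := by
  obtain ⟨n, hn⟩ := exists_nat_ge (t / r)
  obtain ⟨m, hm⟩ : ∃ m : ℕ, m = n + 1 := ⟨_, rfl⟩
  have hm1 : 1 ≤ m := by omega
  have hm0 : (0 : ℝ) < m := by positivity
  have hmr : t / m ≤ r := by
    rw [div_le_iff₀ hm0]
    rw [div_le_iff₀ hr] at hn
    have : (n : ℝ) ≤ m := by rw [hm]; push_cast; linarith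
    nlinarith
  obtain ⟨η, hη⟩ : ∃ η : ℝ, η = t / m := ⟨_, rfl⟩
  have hη0 : 0 ≤ η := by rw [hη]; positivity
  rw [← hη] at hmr
  obtain ⟨g, hg⟩ : ∃ g : ℝ → ℝ, g = fun x => E x + K * x ^ 2 := ⟨_, rfl⟩
  have hloc : ∀ x : ℝ, |x| ≤ δ → 2 * g x ≤ g (x + η) + g (x - η) := by
    intro x hx
    obtain ⟨v, hv⟩ := h x hx
    have h1 := hv η (by rw [abs_of_nonneg hη0]; exact hmr)
    have h2 := hv (-η) (by rw [abs_neg, abs_of_nonneg hη0]; exact hmr)
    rw [← sub_eq_add_neg] at h2
    simp only [hg]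
    nlinarith
  have hmt : (m : ℝ) * η = t := by rw [hη]; field_simp
  have hb := seq_mono (fun j : ℕ => g (j * η) + g (-(j * η))) m ?_ ?_ hm1
  · simp only [Nat.cast_zero, zero_mul, neg_zero] at hb
    rw [hmt] at hb
    simp only [hg] at hb
    nlinarith
  · have h1 := hloc 0 (by rw [abs_zero]; linarith)
    simp only [Nat.cast_zero, zero_mul, neg_zero, Nat.cast_one, one_mul]
    rw [zero_add, zero_sub] at h1
    linarith
  · intro j hj
    have hj1 : ((j : ℝ) + 1) * η ≤ δ := by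
      have : ((j : ℝ) + 1) ≤ m := by
        have : (j + 1 : ℕ) ≤ m := by omega
        exact_mod_cast this
      nlinarith
    have hj0 : 0 ≤ ((j : ℝ) + 1) * η := by positivity
    have h1 := hloc (((j : ℝ) + 1) * η) (by rw [abs_of_nonneg hj0]; exact hj1)
    have h2 := hloc (-(((j : ℝ) + 1) * η)) (by rw [abs_neg, abs_of_nonneg hj0]; exact hj1)
    have e1 : ((j : ℝ) + 1) * η + η = ((j + 2 : ℕ) : ℝ) * η := by push_cast; ring
    have e2 : ((j : ℝ) + 1) * η - η = (j : ℝ) * η := by ring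
    have e3 : -(((j : ℝ) + 1) * η) + η = -((j : ℝ) * η) := by ring
    have e4 : -(((j : ℝ) + 1) * η) - η = -(((j + 2 : ℕ) : ℝ) * η) := by push_cast; ring
    have e5 : ((j + 1 : ℕ) : ℝ) * η = ((j : ℝ) + 1) * η := by push_cast; ring
    rw [e1, e2] at h1
    rw [e3, e4] at h2
    rw [e5]
    linarith

end Pool.Agent.Zk71.ST
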