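import Mathlib

/-! # Ground energies of gapped Hamiltonians: a lower bound of second order -/

set_option autoImplicit false

open scoped InnerProductSpace ComplexConjugate

noncomputable section

namespace Pool.Agent.Zk71.ST

variable {W : Type*} [NormedAddCommGroup W] [InnerProductSpace ℂ W]

/-- The energy transferred by `V`. -/
theorem dcomm (H V : W →ₗ[ℂ] W) (hH : H.IsSymmetric) (hV : V.IsSymmetric) (Ψ : W) (E : ℝ)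
    (hE : H Ψ = (E : ℂ) • Ψ) :
    (⟪Ψ, V (H (V Ψ) - V (H Ψ)) - (H (V (V Ψ)) - V (H (V Ψ)))⟫_ℂ).re =
      2 * ((⟪V Ψ, H (V Ψ)⟫_ℂ).re - E * ‖V Ψ‖ ^ 2) := by
  have h1 : ⟪Ψ, V (H (V Ψ))⟫_ℂ = ⟪V Ψ, H (V Ψ)⟫_ℂ := (hV _ _).symm
  have h2 : ⟪Ψ, V (V (H Ψ))⟫_ℂ = (E : ℂ) * (‖V Ψ‖ ^ 2 : ℝ) := by
    rw [← hV, hE, map_smul, inner_smul_right, inner_self_eq_norm_sq_to_K]
    push_cast
    rfl
  have h3 : ⟪Ψ, H (V (V Ψ))⟫_ℂ = (E : ℂ) * (‖V Ψ‖ ^ 2 : ℝ) := by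
    rw [← hH, hE, inner_smul_left, ← hV, inner_self_eq_norm_sq_to_K, Complex.conj_ofReal]
    push_cast
    rfl
  rw [inner_sub_right, map_sub, inner_sub_right, inner_sub_right, h1, h2, h3]
  rw [← Complex.ofReal_mul]
  simp only [Complex.sub_re, Complex.ofReal_re]
  ring

/-- The variance of `V` in a gapped ground state. -/
theorem variance (H V : W →ₗ[ℂ] W) (hH : H.IsSymmetric) (hV : V.IsSymmetric) (Ψ : W)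
    (hΨ : ‖Ψ‖ = 1) (E Δ D : ℝ) (hE : H Ψ = (E : ℂ) • Ψ)
    (hgap : ∀ φ : W, ⟪Ψ, φ⟫_ℂ = 0 → (E + Δ) * ‖φ‖ ^ 2 ≤ (⟪φ, H φ⟫_ℂ).re)
    (hD : (⟪V Ψ, H (V Ψ)⟫_ℂ).re - E * ‖V Ψ‖ ^ 2 ≤ D) :
    Δ * ‖V Ψ - ⟪Ψ, V Ψ⟫_ℂ • Ψ‖ ^ 2 ≤ D := by
  obtain ⟨v, hv⟩ : ∃ v : ℂ, v = ⟪Ψ, V Ψ⟫_ℂ := ⟨_, rfl⟩
  rw [← hv]
  obtain ⟨w, hw⟩ : ∃ w : W, w = V Ψ - v • Ψ := ⟨_, rfl⟩
  rw [← hw]
  have hΨΨ : ⟪Ψ, Ψ⟫_ℂ = 1 := by
    rw [inner_self_eq_norm_sq_to_K, hΨ]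
    simp
  have h0 : ⟪Ψ, w⟫_ℂ = 0 := by
    rw [hw, inner_sub_right, inner_smul_right, hΨΨ, hv]
    ring
  have h0' : ⟪w, Ψ⟫_ℂ = 0 := by rw [← inner_conj_symm, h0, map_zero]
  have hVw : V Ψ = w + v • Ψ := by rw [hw]; abel
  have h1 := hgap w h0
  have hHw : ⟪w, H Ψ⟫_ℂ = 0 := by rw [hE, inner_smul_right, h0', mul_zero]
  have hHw' : ⟪Ψ, H w⟫_ℂ = 0 := by rw [← hH, hE, inner_smul_left, h0, mul_zero]
  have hHΨ : ⟪Ψ, H Ψ⟫_ℂ = E := by rw [hE, inner_smul_right, hΨΨ, mul_one]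
  have h2 : ⟪V Ψ, H (V Ψ)⟫_ℂ = ⟪w, H w⟫_ℂ + ((‖v‖ ^ 2 * E : ℝ) : ℂ) := by
    rw [hVw, map_add, map_smul, inner_add_left, inner_add_right, inner_add_right, inner_smul_right,
      inner_smul_left, inner_smul_left, inner_smul_right, hHw, hHw', hHΨ]
    have h3 : (starRingEnd ℂ) v * v = ((‖v‖ ^ 2 : ℝ) : ℂ) := by
      rw [Complex.conj_mul']
      push_cast
      rfl
    push_cast
    push_cast at h3
    linear_combination (E : ℂ) * h3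
  have h3 : ‖V Ψ‖ ^ 2 = ‖w‖ ^ 2 + ‖v‖ ^ 2 := by
    have h4 : ⟪V Ψ, V Ψ⟫_ℂ = ⟪w, w⟫_ℂ + ((‖v‖ ^ 2 : ℝ) : ℂ) := by
      rw [hVw, inner_add_left, inner_add_right, inner_add_right, inner_smul_right,
        inner_smul_left, inner_smul_left, inner_smul_right, h0, h0', hΨΨ]
      have h3 : (starRingEnd ℂ) v * v = ((‖v‖ ^ 2 : ℝ) : ℂ) := by
        rw [Complex.conj_mul']
        push_cast
        rfl
      push_cast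
      push_cast at h3
      linear_combination h3
    rw [inner_self_eq_norm_sq_to_K, inner_self_eq_norm_sq_to_K] at h4
    have h5 : (((‖V Ψ‖ ^ 2 : ℝ)) : ℂ) = ((‖w‖ ^ 2 + ‖v‖ ^ 2 : ℝ) : ℂ) := by
      push_cast
      push_cast at h4
      exact h4
    exact_mod_cast h5
  rw [h2, h3, Complex.add_re, Complex.ofReal_re] at hD
  nlinarith

/-- Lower bound for the energies of `H + s V` for small `s`. -/
theorem lower (H V : W →ₗ[ℂ] W) (hH : H.IsSymmetric) (hV : V.IsSymmetric) (Ψ : W)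
    (hΨ : ‖Ψ‖ = 1) (E Δ D B : ℝ) (hΔ : 0 < Δ) (hE : H Ψ = (E : ℂ) • Ψ)
    (hgap : ∀ φ : W, ⟪Ψ, φ⟫_ℂ = 0 → (E + Δ) * ‖φ‖ ^ 2 ≤ (⟪φ, H φ⟫_ℂ).re)
    (hD : (⟪V Ψ, H (V Ψ)⟫_ℂ).re - E * ‖V Ψ‖ ^ 2 ≤ D) (hB : ∀ x, ‖V x‖ ≤ B * ‖x‖)
    (s : ℝ) (hs : 4 * |s| * B ≤ Δ) (φ : W) (hφ : ‖φ‖ = 1) :
    E + s * (⟪Ψ, V Ψ⟫_ℂ).re - 2 * D / Δ ^ 2 * s ^ 2 ≤ (⟪φ, H φ⟫_ℂ).re + s * (⟪φ, V φ⟫_ℂ).re := by
  have hvar := variance H V hH hV Ψ hΨ E Δ D hE hgap hD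
  obtain ⟨v, hv⟩ : ∃ v : ℂ, v = ⟪Ψ, V Ψ⟫_ℂ := ⟨_, rfl⟩
  rw [← hv] at hvar ⊢
  obtain ⟨w, hw⟩ : ∃ w : W, w = V Ψ - v • Ψ := ⟨_, rfl⟩
  rw [← hw] at hvar
  have hΨΨ : ⟪Ψ, Ψ⟫_ℂ = 1 := by
    rw [inner_self_eq_norm_sq_to_K, hΨ]
    simp
  obtain ⟨a, ha⟩ : ∃ a : ℂ, a = ⟪Ψ, φ⟫_ℂ := ⟨_, rfl⟩
  obtain ⟨χ, hχ⟩ : ∃ χ : W, χ = φ - a • Ψ := ⟨_, rfl⟩
  have h0 : ⟪Ψ, χ⟫_ℂ = 0 := by
    rw [hχ, inner_sub_right, inner_smul_right, hΨΨ, ha]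
    ring
  have h0' : ⟪χ, Ψ⟫_ℂ = 0 := by rw [← inner_conj_symm, h0, map_zero]
  have hφe : φ = χ + a • Ψ := by rw [hχ]; abel
  have haa : (starRingEnd ℂ) a * a = ((‖a‖ ^ 2 : ℝ) : ℂ) := by
    rw [Complex.conj_mul']
    push_cast
    rfl
  have hn : ‖χ‖ ^ 2 + ‖a‖ ^ 2 = 1 := by
    have h4 : ⟪φ, φ⟫_ℂ = ⟪χ, χ⟫_ℂ + ((‖a‖ ^ 2 : ℝ) : ℂ) := by
      rw [hφe, inner_add_left, inner_add_right, inner_add_right, inner_smul_right,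
        inner_smul_left, inner_smul_left, inner_smul_right, h0, h0', hΨΨ]
      linear_combination haa
    rw [inner_self_eq_norm_sq_to_K, inner_self_eq_norm_sq_to_K, hφ] at h4
    have h5 : (((1 : ℝ)) : ℂ) = ((‖χ‖ ^ 2 + ‖a‖ ^ 2 : ℝ) : ℂ) := by
      push_cast
      push_cast at h4
      simpa using h4
    exact_mod_cast h5.symm
  have hHΨ : ⟪Ψ, H Ψ⟫_ℂ = E := by rw [hE, inner_smul_right, hΨΨ, mul_one]
  have hHc : ⟪χ, H Ψ⟫_ℂ = 0 := by rw [hE, inner_smul_right, h0', mul_zero]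
  have hHc' : ⟪Ψ, H χ⟫_ℂ = 0 := by rw [← hH, hE, inner_smul_left, h0, mul_zero]
  have hHφ : (⟪φ, H φ⟫_ℂ).re = (⟪χ, H χ⟫_ℂ).re + ‖a‖ ^ 2 * E := by
    have h2 : ⟪φ, H φ⟫_ℂ = ⟪χ, H χ⟫_ℂ + ((‖a‖ ^ 2 * E : ℝ) : ℂ) := by
      rw [hφe, map_add, map_smul, inner_add_left, inner_add_right, inner_add_right,
        inner_smul_right, inner_smul_left, inner_smul_left, inner_smul_right, hHc, hHc', hHΨ]
      push_cast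
      push_cast at haa
      linear_combination (E : ℂ) * haa
    rw [h2, Complex.add_re, Complex.ofReal_re]
  have hvr : ((v.re : ℝ) : ℂ) = v := by
    have h2 : (starRingEnd ℂ) v = v := by
      rw [hv, inner_conj_symm, ← hV]
    exact Complex.conj_eq_iff_re.1 h2
  have hVΨ : V Ψ = w + v • Ψ := by rw [hw]; abel
  have hwc : ⟪Ψ, V χ⟫_ℂ = ⟪w, χ⟫_ℂ := by
    rw [← hV, hVΨ, inner_add_left, inner_smul_left, h0, mul_zero, add_zero]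
  have hVφ : (⟪φ, V φ⟫_ℂ).re = (⟪χ, V χ⟫_ℂ).re + 2 * ((starRingEnd ℂ) a * ⟪w, χ⟫_ℂ).re +
      ‖a‖ ^ 2 * v.re := by
    have h2 : ⟪φ, V φ⟫_ℂ = ⟪χ, V χ⟫_ℂ + ((starRingEnd ℂ) a * ⟪w, χ⟫_ℂ) +
        (starRingEnd ℂ) ((starRingEnd ℂ) a * ⟪w, χ⟫_ℂ) + ((‖a‖ ^ 2 * v.re : ℝ) : ℂ) := by
      have h3 : ⟪χ, V Ψ⟫_ℂ = (starRingEnd ℂ) ⟪w, χ⟫_ℂ := by
        rw [← hwc, inner_conj_symm, ← hV]
      rw [hφe, map_add, map_smul, inner_add_left, inner_add_right, inner_add_right,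
        inner_smul_right, inner_smul_left, inner_smul_left, inner_smul_right, h3, hwc, ← hv,
        map_mul, Complex.conj_conj]
      push_cast
      rw [hvr]
      push_cast at haa
      linear_combination v * haa
    rw [h2, Complex.add_re, Complex.add_re, Complex.add_re, Complex.ofReal_re, Complex.conj_re]
    ring
  have hg := hgap χ h0
  have hb0 := norm_nonneg χ
  have ha1 : ‖a‖ ≤ 1 := by
    have := norm_nonneg a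
    nlinarith [sq_nonneg ‖χ‖]
  have c1 : |((starRingEnd ℂ) a * ⟪w, χ⟫_ℂ).re| ≤ ‖w‖ * ‖χ‖ := by
    refine (Complex.abs_re_le_norm _).trans ?_
    rw [norm_mul, RCLike.norm_conj]
    have h2 := norm_inner_le_norm (𝕜 := ℂ) w χ
    have h3 := norm_nonneg ⟪w, χ⟫_ℂ
    nlinarith [norm_nonneg a]
  have c2 : |(⟪χ, V χ⟫_ℂ).re| ≤ B * ‖χ‖ ^ 2 := by
    refine (Complex.abs_re_le_norm _).trans ?_
    have h2 := norm_inner_le_norm (𝕜 := ℂ) χ (V χ)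
    have h3 := hB χ
    nlinarith
  have c3 : |v.re| ≤ B := by
    refine (Complex.abs_re_le_norm _).trans ?_
    rw [hv]
    have h2 := norm_inner_le_norm (𝕜 := ℂ) Ψ (V Ψ)
    have h3 := hB Ψ
    rw [hΨ] at h2 h3
    linarith
  rw [hHφ, hVφ]
  obtain ⟨b, hb⟩ : ∃ b : ℝ, b = ‖χ‖ := ⟨_, rfl⟩
  obtain ⟨σ, hσ⟩ : ∃ σ : ℝ, σ = ‖w‖ := ⟨_, rfl⟩
  rw [← hb] at hn hg hb0 c1 c2
  rw [← hσ] at hvar c1
  have hσ0 : 0 ≤ σ := by rw [hσ]; exact norm_nonneg _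
  obtain ⟨x1, hx1⟩ : ∃ x1 : ℝ, x1 = (⟪χ, V χ⟫_ℂ).re := ⟨_, rfl⟩
  obtain ⟨x2, hx2⟩ : ∃ x2 : ℝ, x2 = ((starRingEnd ℂ) a * ⟪w, χ⟫_ℂ).re := ⟨_, rfl⟩
  rw [← hx1, ← hx2]
  rw [← hx2] at c1
  rw [← hx1] at c2
  have haa2 : ‖a‖ ^ 2 = 1 - b ^ 2 := by linarith
  rw [haa2]
  have d1 : -(|s| * (B * b ^ 2)) ≤ s * x1 := by
    have h2 : |s * x1| ≤ |s| * (B * b ^ 2) := by
      rw [abs_mul]
      exact mul_le_mul_of_nonneg_left c2 (abs_nonneg s)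
    exact (abs_le.1 h2).1
  have d2 : -(|s| * (σ * b)) ≤ s * x2 := by
    have h2 : |s * x2| ≤ |s| * (σ * b) := by
      rw [abs_mul]
      exact mul_le_mul_of_nonneg_left c1 (abs_nonneg s)
    exact (abs_le.1 h2).1
  have d3 : s * v.re * b ^ 2 ≤ |s| * B * b ^ 2 := by
    have h2 : s * v.re ≤ |s| * B := by
      refine (le_abs_self _).trans ?_
      rw [abs_mul]
      exact mul_le_mul_of_nonneg_left c3 (abs_nonneg s)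
    exact mul_le_mul_of_nonneg_right h2 (sq_nonneg b)
  have d4 : 2 * (|s| * B) * b ^ 2 ≤ Δ / 2 * b ^ 2 :=
    mul_le_mul_of_nonneg_right (by linarith) (sq_nonneg b)
  have d5 : 2 * (|s| * (σ * b)) ≤ Δ / 2 * b ^ 2 + 2 * D / Δ ^ 2 * s ^ 2 := by
    have e1 : 2 * (|s| * (σ * b)) ≤ Δ / 2 * b ^ 2 + 2 * (s ^ 2 * σ ^ 2) / Δ := by
      have e2 : 0 ≤ (Δ * b - 2 * (|s| * σ)) ^ 2 / (2 * Δ) := by positivity
      have e3 : (Δ * b - 2 * (|s| * σ)) ^ 2 / (2 * Δ) =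
          Δ / 2 * b ^ 2 + 2 * (s ^ 2 * σ ^ 2) / Δ - 2 * (|s| * (σ * b)) := by
        field_simp
        rw [← sq_abs s]
        ring
      linarith
    have e4 : 2 * (s ^ 2 * σ ^ 2) / Δ ≤ 2 * D / Δ ^ 2 * s ^ 2 := by
      rw [div_mul_eq_mul_div, div_le_div_iff₀ hΔ (by positivity)]
      have e5 : 2 * s ^ 2 * Δ * (Δ * σ ^ 2) ≤ 2 * s ^ 2 * Δ * D :=
        mul_le_mul_of_nonneg_left hvar (by positivity)
      nlinarith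
    linarith
  nlinarith

end Pool.Agent.Zk71.ST
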