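import Pool.Agent.Zk71.ST.Low
import Pool.Agent.Zk71.ST.Conv
import Pool.Agent.Zk71.ST.Alg
import Pool.Agent.Zk71.AX.Gap

/-! # Local Hamiltonians -/

set_option autoImplicit false
set_option linter.unusedSectionVars false

open scoped BigOperators ComplexConjugate InnerProductSpace Matrix
open Finset

noncomputable section

namespace Pool.Agent.Zk71.ST

open Pool.Agent.TH235 Pool.Agent.TH235.PP Pool.Agent.TH235.PQ

variable {d R' L : ℕ} [NeZero L]

theorem term_comm2 (h g : BoxOp d (R' + 1)) (u u' : Site L)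
    (hd : ∀ x x' : Fin (R' + 1) × Fin (R' + 1), sh u x ≠ sh u' x') :
    Commute (term h u) (term g u') := by
  rw [term_eq h u, term_eq g u']
  refine Commute.sum_left _ _ _ fun pq _ => Commute.sum_right _ _ _ fun pq' _ => ?_
  refine Commute.smul_left (Commute.smul_right ?_ _) _
  unfold Commute SemiconjBy
  rw [tp_mul, tp_mul]
  congr 1
  funext v
  by_cases hv : ∃ x : Fin (R' + 1) × Fin (R' + 1), sh u x = v
  · obtain ⟨x, rfl⟩ := hv
    rw [loc_out u' _ _ _ (fun x' => (hd x x').symm), mul_one, one_mul]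
  · push Not at hv
    rw [loc_out u _ _ _ hv, mul_one, one_mul]

/-- the boxes at `u` and `w` intersect -/
def adjB (R' : ℕ) {L : ℕ} (u w : Site L) : Prop :=
  ∃ x x' : Fin (R' + 1) × Fin (R' + 1), sh u x = sh w x'

open Classical in
theorem adjB_card (u : Site L) :
    (univ.filter fun w => adjB R' u w).card ≤ (R' + 1) ^ 4 := by
  have h1 : (univ.filter fun w => adjB R' u w) ⊆
      (univ : Finset ((Fin (R' + 1) × Fin (R' + 1)) × (Fin (R' + 1) × Fin (R' + 1)))).image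
        (fun p => (u.1 + ((p.1.1 : ℕ) : ZMod L) - ((p.2.1 : ℕ) : ZMod L),
          u.2 + ((p.1.2 : ℕ) : ZMod L) - ((p.2.2 : ℕ) : ZMod L))) := by
    intro w hw
    rw [mem_filter] at hw
    obtain ⟨-, x, x', hx⟩ := hw
    rw [mem_image]
    refine ⟨(x, x'), mem_univ _, ?_⟩
    unfold sh at hx
    rw [Prod.mk.injEq] at hx
    ext
    · simp only []
      rw [hx.1]; ring
    · simp only []
      rw [hx.2]; ring
  have h2 := (card_le_card h1).trans card_image_le
  have h3 : (univ : Finset ((Fin (R' + 1) × Fin (R' + 1)) × (Fin (R' + 1) × Fin (R' + 1)))).card =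
      (R' + 1) ^ 4 := by
    rw [Finset.card_univ]
    simp only [Fintype.card_prod, Fintype.card_fin]
    ring
  rw [h3] at h2
  exact h2

open scoped Matrix.Norms.L2Operator in
theorem ham_dc (h g : BoxOp d (R' + 1)) (J : ℝ) (hJ : 0 ≤ J) (hh : nJ h ≤ J) (hg : nJ g ≤ J) :
    ‖ham g L * (ham h L * ham g L - ham g L * ham h L) -
      (ham h L * ham g L - ham g L * ham h L) * ham g L‖ ≤
      8 * (((R' + 1) ^ 4 : ℕ) : ℝ) ^ 2 * J ^ 3 * (L : ℝ) ^ 2 := by
  have H := dc_bound (A := TorOp d L) (fun u : Site L => term g u) (fun u : Site L => term h u)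
    (adjB R') ((R' + 1) ^ 4) J hJ (fun u => (norm_term g u).trans hg)
    (fun u => (norm_term h u).trans hh)
    (fun x z hxz => term_comm2 g g x z fun a b hab => hxz ⟨a, b, hab⟩)
    (fun x z hxz => term_comm2 g h x z fun a b hab => hxz ⟨a, b, hab⟩)
    (fun x z ⟨a, b, hab⟩ => ⟨b, a, hab.symm⟩) (fun x => adjB_card x)
  have hc : (Fintype.card (Site L) : ℝ) = (L : ℝ) ^ 2 := by
    rw [Fintype.card_prod, ZMod.card]
    push_cast
    ring
  rw [hc] at H
  exact H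

/-- Lower bound for the energies of `H + s V`, in terms of matrices. -/
theorem mat_lower {n : Type} [Fintype n] [DecidableEq n] (H V : Matrix n n ℂ) (hH : H.IsHermitian)
    (hV : V.IsHermitian) (Ψ : n → ℂ) (hΨ : normSq Ψ = 1) (E Δ D B : ℝ) (hΔ : 0 < Δ)
    (hE : H *ᵥ Ψ = (E : ℂ) • Ψ)
    (hgap : ∀ φ : n → ℂ, ip Ψ φ = 0 → (E + Δ) * normSq φ ≤ (ip φ (H *ᵥ φ)).re)
    (hD : open scoped Matrix.Norms.L2Operator in
      ‖V * (H * V - V * H) - (H * V - V * H) * V‖ ≤ 2 * D)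
    (hB : open scoped Matrix.Norms.L2Operator in ‖V‖ ≤ B)
    (s : ℝ) (hs : 4 * |s| * B ≤ Δ) (φ : n → ℂ) (hφ : normSq φ = 1) :
    E + s * (ip Ψ (V *ᵥ Ψ)).re - 2 * D / Δ ^ 2 * s ^ 2 ≤
      (ip φ (H *ᵥ φ)).re + s * (ip φ (V *ᵥ φ)).re := by
  have hsym : ∀ A : Matrix n n ℂ, A.IsHermitian → (Matrix.toEuclideanLin A).IsSymmetric :=
    fun A hA => Matrix.isSymmetric_toEuclideanLin_iff.mpr hA
  have hap : ∀ (A : Matrix n n ℂ) (x : n → ℂ),
      Matrix.toEuclideanLin A (WithLp.toLp 2 x) = WithLp.toLp 2 (A *ᵥ x) := fun A x => rfl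
  have hnn : ∀ x : n → ℂ, ‖(WithLp.toLp 2 x : EuclideanSpace ℂ n)‖ ^ 2 = normSq x := by
    intro x
    unfold normSq
    rw [EuclideanSpace.norm_sq_eq]
  have hn1 : ∀ x : n → ℂ, normSq x = 1 → ‖(WithLp.toLp 2 x : EuclideanSpace ℂ n)‖ = 1 := by
    intro x hx
    have h1 := hnn x
    rw [hx] at h1
    nlinarith [norm_nonneg (WithLp.toLp 2 x : EuclideanSpace ℂ n)]
  have hE' : Matrix.toEuclideanLin H (WithLp.toLp 2 Ψ) = (E : ℂ) • (WithLp.toLp 2 Ψ) := by
    rw [hap, hE]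
    rfl
  have hD' : (⟪Matrix.toEuclideanLin V (WithLp.toLp 2 Ψ), Matrix.toEuclideanLin H
      (Matrix.toEuclideanLin V (WithLp.toLp 2 Ψ))⟫_ℂ).re -
      E * ‖Matrix.toEuclideanLin V (WithLp.toLp 2 Ψ)‖ ^ 2 ≤ D := by
    have h1 := dcomm (Matrix.toEuclideanLin H) (Matrix.toEuclideanLin V) (hsym H hH) (hsym V hV)
      (WithLp.toLp 2 Ψ) E hE'
    have h2 : Matrix.toEuclideanLin V (Matrix.toEuclideanLin H (Matrix.toEuclideanLin V
        (WithLp.toLp 2 Ψ)) - Matrix.toEuclideanLin V (Matrix.toEuclideanLin H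
        (WithLp.toLp 2 Ψ))) - (Matrix.toEuclideanLin H (Matrix.toEuclideanLin V
        (Matrix.toEuclideanLin V (WithLp.toLp 2 Ψ))) - Matrix.toEuclideanLin V
        (Matrix.toEuclideanLin H (Matrix.toEuclideanLin V (WithLp.toLp 2 Ψ)))) =
        WithLp.toLp 2 ((V * (H * V - V * H) - (H * V - V * H) * V) *ᵥ Ψ) := by
      rw [map_sub]
      simp only [hap]
      rw [Matrix.sub_mulVec, Matrix.mul_sub, Matrix.sub_mul, Matrix.sub_mulVec, Matrix.sub_mulVec]
      simp only [← Matrix.mulVec_mulVec]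
      rfl
    rw [h2] at h1
    have h3 : |(⟪(WithLp.toLp 2 Ψ : EuclideanSpace ℂ n),
        WithLp.toLp 2 ((V * (H * V - V * H) - (H * V - V * H) * V) *ᵥ Ψ)⟫_ℂ).re| ≤ 2 * D := by
      refine (Complex.abs_re_le_norm _).trans ?_
      refine (norm_inner_le_norm _ _).trans ?_
      rw [hn1 Ψ hΨ, one_mul]
      have h4 := Matrix.l2_opNorm_mulVec (V * (H * V - V * H) - (H * V - V * H) * V)
        (WithLp.toLp 2 Ψ)
      rw [hn1 Ψ hΨ, mul_one] at h4
      exact h4.trans hD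
    have h5 := (abs_le.1 h3).2
    linarith
  have H1 := lower (Matrix.toEuclideanLin H) (Matrix.toEuclideanLin V) (hsym H hH) (hsym V hV)
    (WithLp.toLp 2 Ψ) (hn1 Ψ hΨ) E Δ D B hΔ hE' ?_ hD' ?_ s hs (WithLp.toLp 2 φ) (hn1 φ hφ)
  · simp only [hap, ← ip_eq] at H1
    exact H1
  · intro x hx
    have h1 := hgap x.ofLp (by rw [ip_eq]; exact hx)
    rw [← hnn, ip_eq] at h1
    exact h1
  · intro x
    exact (Matrix.l2_opNorm_mulVec V x).trans (mul_le_mul_of_nonneg_right hB (norm_nonneg _))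

end Pool.Agent.Zk71.ST
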